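import Mathlib

set_option autoImplicit false

namespace Pool.Agent.Results.MP_fb12c6_gt.Gap

open Cardinal

/-- `𝓔` is a ballean structure on `X`. -/
def IsBallean {X : Type} (𝓔 : Set (Set (X × X))) : Prop :=
  (∀ E ∈ 𝓔, ∀ x, (x, x) ∈ E) ∧
  (∀ E ∈ 𝓔, ∀ F ∈ 𝓔, ∃ D ∈ 𝓔, ∀ x y z, (x, y) ∈ E → (z, y) ∈ F → (x, z) ∈ D) ∧
  (∀ p : X × X, ∃ E ∈ 𝓔, p ∈ E)

/-- Bounded subsets of `X`. -/
def Bdd {X : Type} (𝓔 : Set (Set (X × X))) (B : Set X) : Prop :=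
  ∃ E ∈ 𝓔, ∃ x, ∀ y ∈ B, (x, y) ∈ E

/-- Bounded subsets of the square `X × X`. -/
def Bdd2 {X : Type} (𝓔 : Set (Set (X × X))) (S : Set (X × X)) : Prop :=
  ∃ E1 ∈ 𝓔, ∃ E2 ∈ 𝓔, ∃ x y, ∀ p ∈ S, (x, p.1) ∈ E1 ∧ (y, p.2) ∈ E2

/-- `E[A]`. -/
def img {X : Type} (E : Set (X × X)) (A : Set X) : Set X := {y | ∃ a ∈ A, (a, y) ∈ E}

/-- `cof_*(𝓔)`. -/
noncomputable def cofLow {X : Type} (𝓔 : Set (Set (X × X))) : Cardinal :=
  sInf {κ | ∃ C ⊆ 𝓔, #C = κ ∧ ∀ E ∈ 𝓔, ∃ D ∈ C, Bdd2 𝓔 (E \ D)}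

/-- `cof_*(𝓔[A])`. -/
noncomputable def cofAt {X : Type} (𝓔 : Set (Set (X × X))) (A : Set X) : Cardinal :=
  sInf {κ | ∃ C ⊆ 𝓔, #C = κ ∧ ∀ E ∈ 𝓔, ∃ D ∈ C, Bdd 𝓔 (img E A \ img D A)}

/-- `cof_⋆(𝓔)`. -/
noncomputable def cofStar {X : Type} (𝓔 : Set (Set (X × X))) : Cardinal := ⨆ A : Set X, cofAt 𝓔 A

def LF : Set (Set (ℕ × ℕ)) :=
  {E | (∀ x, (x, x) ∈ E) ∧ (∀ x, {y | (x, y) ∈ E}.Finite) ∧ ∀ y, {x | (x, y) ∈ E}.Finite}

lemma graph_mem (f g : ℕ → ℕ) (hf : ∀ x, (f ⁻¹' {x}).Finite) (hg : ∀ x, (g ⁻¹' {x}).Finite) :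
    {p : ℕ × ℕ | p.1 = p.2 ∨ ∃ n, p = (f n, g n)} ∈ LF := by
  refine ⟨fun x => Or.inl rfl, fun x => ?_, fun y => ?_⟩
  · apply (((hf x).image g).insert x).subset
    rintro y (h | ⟨n, h⟩)
    · exact Or.inl h.symm
    · exact Or.inr ⟨n, (congrArg Prod.fst h).symm, (congrArg Prod.snd h).symm⟩
  · apply (((hg y).image f).insert y).subset
    rintro x (h | ⟨n, h⟩)
    · exact Or.inl h
    · exact Or.inr ⟨n, (congrArg Prod.snd h).symm, (congrArg Prod.fst h).symm⟩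

lemma fin_bdd {B : Set ℕ} (h : B.Finite) : Bdd LF B := by
  refine ⟨{p | p.1 = p.2 ∨ (p.1 = 0 ∧ p.2 ∈ B)}, ⟨fun x => Or.inl rfl, fun x => ?_, fun y => ?_⟩,
    0, fun y hy => Or.inr ⟨rfl, hy⟩⟩
  · apply (h.insert x).subset
    rintro y (h | h)
    · exact Or.inl h.symm
    · exact Or.inr h.2
  · apply (Set.toFinite {y, 0}).subset
    rintro x (h | h)
    · exact Or.inl h
    · exact Or.inr h.1

theorem result : ∃ (X : Type) (𝓔 : Set (Set (X × X))),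
    IsBallean 𝓔 ∧ cofStar 𝓔 ≤ 1 ∧ ℵ₀ < cofLow 𝓔 := by
  have hid : ∀ x : ℕ, ((fun n : ℕ => n) ⁻¹' {x}).Finite := fun x => Set.finite_singleton x
  refine ⟨ℕ, LF, ⟨fun E hE => hE.1, ?_, ?_⟩, ?_, ?_⟩
  · intro E hE F hF
    refine ⟨{p | ∃ y, (p.1, y) ∈ E ∧ (p.2, y) ∈ F},
      ⟨fun x => ⟨x, hE.1 x, hF.1 x⟩, fun x => ?_, fun z => ?_⟩, fun x y z h1 h2 => ⟨y, h1, h2⟩⟩
    · apply ((hE.2.1 x).biUnion fun y _ => hF.2.2 y).subset
      rintro z ⟨y, h1, h2⟩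
      exact Set.mem_biUnion (t := fun y => {x | (x, y) ∈ F}) h1 h2
    · apply ((hF.2.1 z).biUnion fun y _ => hE.2.2 y).subset
      rintro x ⟨y, h1, h2⟩
      exact Set.mem_biUnion (t := fun y => {x | (x, y) ∈ E}) h2 h1
  · rintro ⟨x, y⟩
    refine ⟨_, graph_mem (fun n => x + n) (fun n => y + n) (fun a => ?_) (fun a => ?_),
      Or.inr ⟨0, rfl⟩⟩
    · exact (Set.finite_singleton a).preimage (add_right_injective x).injOn
    · exact (Set.finite_singleton a).preimage (add_right_injective y).injOn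
  · apply ciSup_le'
    intro A
    apply csInf_le'
    by_cases hA : A.Finite
    · refine ⟨{_}, Set.singleton_subset_iff.2 (graph_mem _ _ hid hid), mk_singleton _,
        fun E hE => ⟨_, rfl, fin_bdd ?_⟩⟩
      apply (hA.biUnion fun a _ => hE.2.1 a).subset
      rintro y ⟨⟨a, ha, h⟩, -⟩
      exact Set.mem_biUnion (t := fun a => {y | (a, y) ∈ E}) ha h
    · have hA' : A.Infinite := hA
      let e := hA'.natEmbedding A
      have hinj : Function.Injective fun n => (e n : ℕ) :=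
        Subtype.val_injective.comp e.injective
      refine ⟨{_}, Set.singleton_subset_iff.2 (graph_mem (fun n => (e n : ℕ)) _
        (fun a => (Set.finite_singleton a).preimage hinj.injOn) hid), mk_singleton _,
        fun E hE => ⟨_, rfl, fin_bdd ?_⟩⟩
      apply Set.finite_empty.subset
      rintro y ⟨-, h⟩
      exact h ⟨e y, (e y).2, Or.inr ⟨y, rfl⟩⟩
  · have hne : {κ | ∃ C ⊆ LF, #C = κ ∧ ∀ E ∈ LF, ∃ D ∈ C, Bdd2 LF (E \ D)}.Nonempty := by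
      refine ⟨_, LF, subset_rfl, rfl, fun E hE => ⟨E, hE, E, hE, E, hE, 0, 0, ?_⟩⟩
      rintro p ⟨h1, h2⟩
      exact absurd h1 h2
    obtain ⟨C, hC, hk, hcof⟩ := csInf_mem hne
    by_contra hle
    rw [not_lt, cofLow, ← hk, le_aleph0_iff_set_countable] at hle
    have hCne : C.Nonempty := by
      obtain ⟨D, hD, -⟩ := hcof _ (graph_mem _ _ hid hid)
      exact ⟨D, hD⟩
    obtain ⟨c, rfl⟩ := hle.exists_eq_range hCne
    have : ∀ n, ∃ m, n ≤ m ∧ ∀ k ≤ n, (n, m) ∉ c k := by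
      intro n
      have hf : (⋃ k ∈ Set.Iic n, {y | (n, y) ∈ c k}).Finite :=
        (Set.finite_Iic n).biUnion fun k _ => (hC ⟨k, rfl⟩).2.1 n
      obtain ⟨m, hm, hm'⟩ := (Set.Ici_infinite n).exists_notMem_finite hf
      exact ⟨m, hm, fun k hk h => hm' (Set.mem_biUnion (t := fun k => {y | (n, y) ∈ c k}) hk h)⟩
    choose f hf1 hf2 using this
    obtain ⟨_, ⟨k, rfl⟩, E1, hE1, E2, -, x, y, h⟩ := hcof _ (graph_mem _ f hid fun a =>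
      (Set.finite_Iic a).subset fun n (hn : f n = a) => (hn ▸ hf1 n : n ≤ a))
    apply Set.Ici_infinite k
    apply (hE1.2.1 x).subset
    intro n hn
    exact (h (n, f n) ⟨Or.inr ⟨n, rfl⟩, hf2 n k hn⟩).1

end Pool.Agent.Results.MP_fb12c6_gt.Gap
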